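import Pool.Agent.Helper34.EC.Defs

/-!
# Project EC, module C7: the generic fibre is normal if the ring is
-/

set_option autoImplicit false

namespace Pool.Agent.Helper59.EC

open Polynomial TensorProduct Pool.Agent.Helper34.EC

variable {k : Type} [Field k] {g : ℕ}

theorem io_X_ne_zero (c : Fin g × Bool → k) : io c PowerSeries.X ≠ 0 := by
  intro h
  have h1 := coeff_io c PowerSeries.X 1
  rw [h, map_zero, pow_one, PowerSeries.coeff_one_X, map_one, mul_one] at h1
  refine (Finset.prod_ne_zero_iff.2 fun e _ => ?_) h1.symm
  exact X_sub_C_ne_zero _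

theorem algebraMap_X_ne_zero (c : Pts k g) :
    algebraMap (PowerSeries k) c.A PowerSeries.X ≠ 0 := by
  intro h
  have h1 := c.ps_algebraMap PowerSeries.X
  rw [h, map_zero] at h1
  exact io_X_ne_zero c.c h1.symm

attribute [local instance] Algebra.TensorProduct.rightAlgebra in
/-- EC-C7, with EC-C6 as a hypothesis -/
theorem isIntegrallyClosed_AF_of (c : Pts k g) (h : IsIntegrallyClosed c.A) :
    IsIntegrallyClosed c.AF := by
  have := h
  have h1 : IsLocalization (Algebra.algebraMapSubmonoid c.A
      (Submonoid.powers (PowerSeries.X : PowerSeries k))) c.AF :=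
    IsLocalization.tensorRight (R := PowerSeries k) (S := c.A) (LaurentSeries k)
      (Submonoid.powers (PowerSeries.X : PowerSeries k))
  have := h1
  refine isIntegrallyClosed_of_isLocalization (R := c.A) c.AF (Algebra.algebraMapSubmonoid c.A
      (Submonoid.powers (PowerSeries.X : PowerSeries k))) ?_
  rintro _ ⟨x, ⟨n, rfl⟩, rfl⟩
  refine mem_nonZeroDivisors_of_ne_zero ?_
  have h2 := algebraMap_X_ne_zero c
  simpa using fun h3 => absurd h3 h2

end Pool.Agent.Helper59.EC
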