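import Pool.Agent.Helper50.EC.NormalA
import Pool.Agent.Helper59.EC.NormalAFOf

/-!
# Project EC, module C7: the generic fibre is normal
-/

set_option autoImplicit false

namespace Pool.Agent.Helper59.EC

open Pool.Agent.Helper34.EC

variable {k : Type} [Field k] {g : ℕ}

/-- EC-C7 -/
theorem isIntegrallyClosed_AF (c : Pts k g) [IsDomain c.AF] : IsIntegrallyClosed c.AF :=
  isIntegrallyClosed_AF_of c (Pool.Agent.Helper50.EC.isIntegrallyClosed_A c)

end Pool.Agent.Helper59.EC
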