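import Pool.Agent.Helper90.EC.GenDiv

/-!
# Project EC: two divisors
-/

set_option autoImplicit false

namespace Pool.Agent.Helper59.EC

open TensorProduct Pool.Agent.Helper16 Pool.Agent.Helper47.RR Pool.Agent.Helper34.EC
  Pool.Agent.Helper90.EC

/-- The space `V ⊗ W` inside `A ⊗ A`. -/
def tens {F A : Type} [Field F] [CommRing A] [Algebra F A] (V W : Submodule F A) :
    Submodule F (A ⊗[F] A) := Submodule.span F {x | ∃ a ∈ V, ∃ b ∈ W, x = a ⊗ₜ[F] b}

theorem sq_eq_tens {F A : Type} [Field F] [CommRing A] [Algebra F A] (V : Submodule F A) :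
    Pool.Agent.Helper34.EC.sq V = tens V V := rfl

theorem tens_eq_range {F A : Type} [Field F] [CommRing A] [Algebra F A] (V W : Submodule F A) :
    tens V W = LinearMap.range (TensorProduct.map V.subtype W.subtype) := by
  apply le_antisymm
  · unfold tens
    rw [Submodule.span_le]
    rintro x ⟨a, ha, b, hb, rfl⟩
    exact ⟨(⟨a, ha⟩ : V) ⊗ₜ[F] (⟨b, hb⟩ : W), rfl⟩
  · rintro _ ⟨y, rfl⟩
    induction y using TensorProduct.induction_on with
    | zero => rw [map_zero]; exact Submodule.zero_mem _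
    | tmul a b => exact Submodule.subset_span ⟨a, a.2, b, b.2, rfl⟩
    | add y z hy hz => rw [map_add]; exact Submodule.add_mem _ hy hz

theorem comm_mem_ideal {F A : Type} [Field F] [CommRing A] [Algebra F A] (n : ℕ) {x : A ⊗[F] A}
    (hx : x ∈ (KaehlerDifferential.ideal F A) ^ n) :
    Algebra.TensorProduct.comm F A A x ∈ (KaehlerDifferential.ideal F A) ^ n := by
  have h1 : (KaehlerDifferential.ideal F A).map (Algebra.TensorProduct.comm F A A) ≤
      KaehlerDifferential.ideal F A := by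
    rw [Ideal.map_le_iff_le_comap]
    intro y hy
    rw [Ideal.mem_comap]
    have h2 : (Algebra.TensorProduct.lmul' F : A ⊗[F] A →ₐ[F] A) y = 0 := hy
    have h3 : (Algebra.TensorProduct.lmul' F : A ⊗[F] A →ₐ[F] A)
        (Algebra.TensorProduct.comm F A A y) = (Algebra.TensorProduct.lmul' F) y := by
      have h4 : ((Algebra.TensorProduct.lmul' F : A ⊗[F] A →ₐ[F] A).comp
          (Algebra.TensorProduct.comm F A A).toAlgHom) = Algebra.TensorProduct.lmul' F := by
        ext a <;> simp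
      exact congrArg (fun f => f y) h4
    change (Algebra.TensorProduct.lmul' F : A ⊗[F] A →ₐ[F] A)
      (Algebra.TensorProduct.comm F A A y) = 0
    rw [h3, h2]
  have h2 := Ideal.mem_map_of_mem (Algebra.TensorProduct.comm F A A) hx
  rw [Ideal.map_pow] at h2
  exact Ideal.pow_right_mono h1 n h2

theorem mul_comm_mem_sq {F A : Type} [Field F] [CommRing A] [Algebra F A] {V W U : Submodule F A}
    (h : ∀ a ∈ V, ∀ b ∈ W, a * b ∈ U) {x y : A ⊗[F] A} (hx : x ∈ tens V W) (hy : y ∈ tens V W) :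
    x * Algebra.TensorProduct.comm F A A y ∈ sq U := by
  unfold tens at hx hy
  unfold Pool.Agent.Helper34.EC.sq
  induction hx using Submodule.span_induction with
  | mem x hx =>
    obtain ⟨a, ha, b, hb, rfl⟩ := hx
    induction hy using Submodule.span_induction with
    | mem y hy =>
      obtain ⟨c, hc, d, hd, rfl⟩ := hy
      apply Submodule.subset_span
      refine ⟨a * d, h a ha d hd, c * b, h c hc b hb, ?_⟩
      rw [Algebra.TensorProduct.comm_tmul, Algebra.TensorProduct.tmul_mul_tmul, mul_comm b c]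
    | zero => rw [map_zero, mul_zero]; exact Submodule.zero_mem _
    | add u v _ _ hu hv => rw [map_add, mul_add]; exact Submodule.add_mem _ hu hv
    | smul c u _ hu => rw [map_smul, mul_smul_comm]; exact Submodule.smul_mem _ _ hu
  | zero => rw [zero_mul]; exact Submodule.zero_mem _
  | add u v _ _ hu hv => rw [add_mul]; exact Submodule.add_mem _ hu hv
  | smul c u _ hu => rw [smul_mul_assoc]; exact Submodule.smul_mem _ _ hu

theorem degD_add' {k L : Type} [Field k] [Field L] [Algebra k L] (D E : Dv k L) :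
    degD (D + E) = degD D + degD E := by
  unfold degD
  exact Finsupp.sum_add_index' (fun _ => rfl) (fun _ _ _ => rfl)

/-- A slope bound for one divisor implies a slope bound for two divisors. -/
theorem two_div {Ω L : Type} [Field Ω] [IsAlgClosed Ω] [Field L] [Algebra Ω L] (κ : ℝ)
    (h1 : ∀ (E : Dv Ω L) (γ : ℕ), 1 ≤ γ → ∀ x ∈ sq (Lsp E), x ≠ 0 →
      x ∈ (KaehlerDifferential.ideal Ω L) ^ γ → κ * γ ≤ (degD E : ℝ) - γ)
    (D₁ D₂ : Dv Ω L) (γ : ℕ) (hγ : 1 ≤ γ) (x : L ⊗[Ω] L) (hx : x ∈ tens (Lsp D₁) (Lsp D₂))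
    (h0 : x ≠ 0) (hI : x ∈ (KaehlerDifferential.ideal Ω L) ^ γ) :
    κ * γ ≤ ((degD D₁ : ℝ) + degD D₂) / 2 - γ := by
  have h2 : x * Algebra.TensorProduct.comm Ω L L x ∈ sq (Lsp (D₁ + D₂)) :=
    mul_comm_mem_sq (gd_Lsp_mul D₁ D₂) hx hx
  have h3 : x * Algebra.TensorProduct.comm Ω L L x ≠ 0 := by
    intro h
    rcases gd_domain _ _ h with h4 | h4
    · exact h0 h4
    · exact h0 ((EmbeddingLike.map_eq_zero_iff).1 h4)
  have h4 : x * Algebra.TensorProduct.comm Ω L L x ∈
      (KaehlerDifferential.ideal Ω L) ^ (γ + γ) := by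
    rw [pow_add]
    exact Ideal.mul_mem_mul hI (comm_mem_ideal γ hI)
  have h5 := h1 (D₁ + D₂) (γ + γ) (by omega) _ h2 h3 h4
  rw [degD_add'] at h5
  push_cast at h5
  linarith

end Pool.Agent.Helper59.EC
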